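import Pool.Agent.Helper1_PRS.Stmts

/-!
# Squad PRS, module EVP: order of an admissible polynomial at any place
-/

set_option autoImplicit false

universe u v

namespace Pool.Agent.PRS.H11

open MvPolynomial PGH

section

variable {L E : Type*} [Field L] [Field E] [CharZero L] [CharZero E] [Algebra L E]

theorem ge_rat (P : Place L E) (q : ℚ) : P.Ge 0 (algebraMap ℚ E q) := by
  have h := P.ge_const ((q : ℚ) : L)
  rwa [map_ratCast, ← eq_ratCast (algebraMap ℚ E)] at h

theorem ge_prod {P : Place L E} {ι : Type*} (s : Finset ι) (f : ι → E) (b : ι → ℕ)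
    (h : ∀ i ∈ s, P.Ge (-(b i : ℤ)) (f i)) : P.Ge (-((∑ i ∈ s, b i : ℕ) : ℤ)) (∏ i ∈ s, f i) := by
  classical
  induction s using Finset.induction_on with
  | empty => simp
  | insert a s ha ih =>
    rw [Finset.prod_insert ha, Finset.sum_insert ha]
    refine (h a (Finset.mem_insert_self _ _)).mul'
      (ih fun i hi => h i (Finset.mem_insert_of_mem hi)) ?_
    push_cast
    omega

theorem ge_pow {P : Place L E} {y : E} {b : ℕ} (h : P.Ge (-(b : ℤ)) y) (n : ℕ) :
    P.Ge (-((n * b : ℕ) : ℤ)) (y ^ n) := by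
  refine (h.pow n).mono (le_of_eq ?_)
  push_cast
  ring

theorem ge_iter {P : Place L E} {D : Derivation ℤ E E} {cp : ℕ} (hD : DGe P D (-(cp : ℤ)))
    {y : E} {ρ : ℕ} (hy : P.Ge (-(ρ : ℤ)) y) (l : ℕ) :
    P.Ge (-(((1 + l) * ρ + 2 * l * cp : ℕ) : ℤ)) ((⇑D)^[l] y) := by
  rcases Nat.eq_zero_or_pos (ρ + cp) with h0 | h0
  · obtain ⟨rfl, rfl⟩ : ρ = 0 ∧ cp = 0 := by omega
    have hD0 : DGe P D 0 := by simpa using hD
    have hy0 : P.Ge 0 y := by simpa using hy
    have := DGe.iter_zero hD0 hy0 l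
    simpa using this
  · refine (DGe.iter hD hy l).mono ?_
    push_cast
    have h1 : (1 : ℤ) ≤ ρ + cp := by exact_mod_cast h0
    nlinarith [mul_nonneg (Int.natCast_nonneg l) (sub_nonneg.2 h1)]

end

/-- EVP. -/
theorem evp : EvpStmt.{u} := by
  intro L E _ _ _ _ _ P D cp hD N m d a x ρ hx Q hQ
  set b : J ⊕ Par N → ℕ := Sum.elim (fun q => (1 + (q.2 : ℕ)) * ρ q.1 + 2 * (q.2 : ℕ) * cp)
    (fun _ => 0) with hb
  set val : J ⊕ Par N → E := Sum.elim (jet D x) (fun q => algebraMap L E (a q)) with hval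
  have hv : ∀ v, P.Ge (-(b v : ℤ)) (val v) := by
    rintro (q | q)
    · exact ge_iter hD (hx q.1) q.2
    · simpa [hb, hval] using P.ge_const (a q)
  rw [aeval_def, eval₂_eq']
  refine Place.Ge.sum fun s hs => ?_
  have hprod := ge_prod (P := P) Finset.univ (fun v => val v ^ s v) (fun v => s v * b v)
    fun v _ => ge_pow (hv v) (s v)
  refine (ge_rat P _).mul' hprod ?_
  rw [zero_add, neg_le_neg_iff]
  have h0 := hQ.deg 0 s hs
  have h1 := hQ.deg 1 s hs
  have h2 := hQ.wt s hs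
  rw [Finsupp.sum_fintype _ _ (fun _ => by simp)] at h0 h1 h2
  simp only [Fintype.sum_sum_type, dw, ww, Sum.elim_inl, Sum.elim_inr, mul_zero,
    Finset.sum_const_zero, add_zero, Fintype.sum_prod_type, Fin.sum_univ_two,
    Fin.sum_univ_three] at h0 h1 h2
  have key : ∑ v, s v * b v ≤ (d + m) * (ρ 0 + ρ 1) + 2 * m * cp := by
    simp only [hb, Fintype.sum_sum_type, Sum.elim_inl, Sum.elim_inr, mul_zero,
      Finset.sum_const_zero, add_zero, Fintype.sum_prod_type, Fin.sum_univ_two,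
      Fin.sum_univ_three]
    simp at h0 h1 h2 ⊢
    nlinarith [Nat.mul_le_mul_right (ρ 0) h0, Nat.mul_le_mul_right (ρ 1) h1,
      Nat.mul_le_mul_right (ρ 0) h2, Nat.mul_le_mul_right (ρ 1) h2, Nat.mul_le_mul_right cp h2]
  exact_mod_cast key

end Pool.Agent.PRS.H11
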